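import Pool.Agent.helper4.GA.Spec

set_option autoImplicit false
set_option linter.unusedVariables false

namespace Pool.Agent.GA

open Finset
open Pool.Agent.helper32.Cant

lemma WIN_ind_nonneg (p : Prop) : 0 ≤ ind p := by
  unfold ind; split_ifs <;> norm_num

lemma WIN_ind_mono {p q : Prop} (h : p → q) : ind p ≤ ind q := by
  unfold ind
  by_cases hp : p
  · rw [if_pos hp, if_pos (h hp)]
  · rw [if_neg hp]; split_ifs <;> norm_num

lemma WIN_ind_le (p : Prop) : ind p ≤ 1 := by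
  unfold ind; split_ifs <;> norm_num

lemma WIN_ind_pos {p : Prop} (h : p) : ind p = 1 := by
  unfold ind; exact if_pos h

lemma WIN_div (l N : ℕ) (hl : 0 < l) (F : ℕ → ℝ) :
    ∑ i ∈ range (N * l), F (i / l) = l * ∑ q ∈ range N, F q := by
  induction N with
  | zero => simp
  | succ N ih =>
    rw [Nat.succ_mul, Finset.sum_range_add, ih, Finset.sum_range_succ, mul_add]
    congr 1
    rw [Finset.sum_congr rfl (g := fun _ => F N)]
    · simp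
    · intro x hx
      rw [Nat.add_comm, Nat.add_mul_div_right _ _ hl, Nat.div_eq_of_lt (Finset.mem_range.1 hx), zero_add]

lemma WIN_blk (B N : ℕ) (a : ℕ → ℝ) :
    ∑ q ∈ range N, ∑ m ∈ range B, a (B * q + m) = ∑ j ∈ range (N * B), a j := by
  induction N with
  | zero => simp
  | succ N ih =>
    rw [Finset.sum_range_succ, ih, Nat.succ_mul, Finset.sum_range_add]
    congr 1
    refine Finset.sum_congr rfl fun m _ => ?_
    rw [mul_comm]

lemma WIN_zm (M : ℕ) [NeZero M] (G : ℕ → ℝ) : ∑ v : ZMod M, G v.val = ∑ i ∈ range M, G i := by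
  obtain ⟨m, rfl⟩ : ∃ m, M = m + 1 := ⟨M - 1, by have := NeZero.pos M; omega⟩
  exact Fin.sum_univ_eq_sum_range G (m + 1)

lemma WIN_avg (n κ : ℕ) (hκ : κ ≤ 2 * n) (F : ℕ → ℝ) :
    ∑ v : ZMod (3 ^ (2 * n)), F (cell n κ v) = (3 : ℝ) ^ (2 * n - κ) * ∑ q ∈ range (3 ^ κ), F q := by
  unfold cell
  rw [WIN_zm _ (fun i => F (i / 3 ^ (2 * n - κ)))]
  have e : 3 ^ (2 * n) = 3 ^ κ * 3 ^ (2 * n - κ) := by
    rw [← pow_add]; congr 1; omega
  rw [e, WIN_div _ _ (by positivity)]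
  push_cast
  rfl

lemma WIN_cell_lt (n κ : ℕ) (hκ : κ ≤ 2 * n) (v : ZMod (3 ^ (2 * n))) : cell n κ v < 3 ^ κ := by
  unfold cell
  have e : 3 ^ (2 * n) = 3 ^ (2 * n - κ) * 3 ^ κ := by
    rw [← pow_add]; congr 1; omega
  have h := ZMod.val_lt v
  exact Nat.div_lt_of_lt_mul (by rw [← e]; exact h)

lemma WIN_ac_nonneg {n : ℕ} (c : Cfg n) (k : ℕ) (p : St n) (m : ℕ) : 0 ≤ ac c k p m :=
  Finset.sum_nonneg fun _ _ => WIN_ind_nonneg _

lemma WIN_ac_sum {n : ℕ} (c : Cfg n) (k : ℕ) (p : St n) (J : ℕ) :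
    ∑ j ∈ range J, ac c k p j ≤ 3 ^ n := by
  unfold ac
  rw [Finset.sum_comm]
  have h : ∀ x ∈ (univ : Finset (Fin (3 ^ n))), ∑ j ∈ range J, ind (cell n k (uv c p x) = j) ≤ 1 := by
    intro x _
    have e : ∀ j, ind (cell n k (uv c p x) = j) = if cell n k (uv c p x) = j then (1 : ℝ) else 0 := by
      intro j
      by_cases hj : cell n k (uv c p x) = j
      · rw [WIN_ind_pos hj, if_pos hj]
      · rw [if_neg hj]; unfold ind; exact if_neg hj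
    rw [Finset.sum_congr rfl fun j _ => e j, Finset.sum_ite_eq]
    split_ifs <;> norm_num
  refine (Finset.sum_le_sum h).trans ?_
  simp

/-- the two neighbouring sums -/
lemma WIN_two (B : ℕ) (hB : 0 < B) (a : ℕ → ℝ) (ha : ∀ i, 0 ≤ a i) :
    ∑ m ∈ range (B - 1), (a m + a (m + 1)) ≤ 2 * ∑ m ∈ range B, a m := by
  obtain ⟨b, rfl⟩ : ∃ b, B = b + 1 := ⟨B - 1, by omega⟩
  rw [Nat.add_sub_cancel, Finset.sum_add_distrib, two_mul]
  refine add_le_add ?_ ?_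
  · rw [Finset.sum_range_succ]; linarith [ha b]
  · rw [Finset.sum_range_succ']; linarith [ha 0]

/-- the cyclic distance of the integer `d` is at most `|d|` -/
lemma WIN_nrm (M : ℕ) [NeZero M] (d : ℤ) : nrm (d : ZMod M) ≤ |(d : ℝ)| := by
  unfold nrm
  have h1 : (((d : ZMod M).valMinAbs : ℤ) : ZMod M) = ((d : ℤ) : ZMod M) := ZMod.coe_valMinAbs _
  have h2 := ZMod.natAbs_min_of_le_div_two M _ _ h1 (ZMod.natAbs_valMinAbs_le _)
  have h3 : |((d : ZMod M).valMinAbs : ℤ)| ≤ |d| := by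
    rw [Int.abs_eq_natAbs, Int.abs_eq_natAbs]; exact_mod_cast h2
  exact_mod_cast h3

/-- the injection `(v₀, m) ↦ (j, v)` -/
lemma WIN_inj (n k A : ℕ) (hA : A ≤ k) (hk : k + 1 ≤ n) (g : ZMod (3 ^ (2 * n)) → ℝ) (hg : ∀ v, 0 ≤ g v) :
    ∑ v₀ : ZMod (3 ^ (2 * n)), ∑ m ∈ range (3 ^ (A + 1) - 1),
      g ((((3 ^ (A + 1) * cell n (k - A) v₀ + m) * 3 ^ (2 * n - (k + 1)) : ℕ) : ZMod (3 ^ (2 * n))) - v₀) ≤
    3 ^ (k + 1) * ∑ v : ZMod (3 ^ (2 * n)), ind (nrm v < 3 ^ (2 * n - (k - A))) * g v := by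
  have hcell := WIN_cell_lt n (k - A) (by omega)
  have hBL : 3 ^ (A + 1) * 3 ^ (2 * n - (k + 1)) = 3 ^ (2 * n - (k - A)) := by
    rw [← pow_add]; congr 1; omega
  have hKB : 3 ^ (k - A) * 3 ^ (A + 1) = 3 ^ (k + 1) := by
    rw [← pow_add]; congr 1; omega
  -- the terms are inside the window
  have hwin : ∀ (v₀ : ZMod (3 ^ (2 * n))) (m : ℕ), m < 3 ^ (A + 1) →
      nrm ((((3 ^ (A + 1) * cell n (k - A) v₀ + m) * 3 ^ (2 * n - (k + 1)) : ℕ) : ZMod (3 ^ (2 * n))) - v₀)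
        < (3 : ℝ) ^ (2 * n - (k - A)) := by
    intro v₀ m hm
    set ℓ := 3 ^ (2 * n - (k - A)) with hℓ
    have hℓ0 : 0 < ℓ := by positivity
    have e1 : v₀ = ((v₀.val : ℤ) : ZMod (3 ^ (2 * n))) := by
      rw [Int.cast_natCast, ZMod.natCast_val, ZMod.cast_id', id]
    have h2 : v₀.val % ℓ < ℓ := Nat.mod_lt _ hℓ0
    have e2 : v₀.val = ℓ * cell n (k - A) v₀ + v₀.val % ℓ := by
      unfold cell; exact (Nat.div_add_mod _ _).symm
    obtain ⟨r, hr⟩ : ∃ r, r = v₀.val % ℓ := ⟨_, rfl⟩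
    rw [← hr] at e2 h2
    have e3 : (((3 ^ (A + 1) * cell n (k - A) v₀ + m) * 3 ^ (2 * n - (k + 1)) : ℕ) : ZMod (3 ^ (2 * n))) - v₀ =
        (((m * 3 ^ (2 * n - (k + 1)) : ℕ) : ℤ) - (r : ℤ) : ℤ) := by
      have e4 : (3 ^ (A + 1) * cell n (k - A) v₀ + m) * 3 ^ (2 * n - (k + 1)) =
          ℓ * cell n (k - A) v₀ + m * 3 ^ (2 * n - (k + 1)) := by
        rw [← hBL]; ring
      rw [e4]
      have e5 : (v₀ : ZMod (3 ^ (2 * n))) = ((ℓ * cell n (k - A) v₀ + r : ℕ) : ZMod (3 ^ (2 * n))) := by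
        rw [← e2, ZMod.natCast_val, ZMod.cast_id', id]
      nth_rewrite 2 [e5]
      push_cast
      ring
    rw [e3]
    refine lt_of_le_of_lt (WIN_nrm _ _) ?_
    have h1 : m * 3 ^ (2 * n - (k + 1)) < ℓ := by
      rw [← hBL]; exact Nat.mul_lt_mul_of_pos_right hm (by positivity)
    have h3 : |(((m * 3 ^ (2 * n - (k + 1)) : ℕ) : ℤ) - (r : ℤ) : ℤ)| < (ℓ : ℤ) := by
      rw [abs_lt]; constructor <;> omega
    have h4 : |((((m * 3 ^ (2 * n - (k + 1)) : ℕ) : ℤ) - (r : ℤ) : ℤ) : ℝ)| < ((ℓ : ℤ) : ℝ) := by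
      exact_mod_cast h3
    refine h4.trans_le (le_of_eq ?_)
    rw [hℓ]; push_cast; rfl
  have step1 : ∀ v₀ : ZMod (3 ^ (2 * n)), ∑ m ∈ range (3 ^ (A + 1) - 1),
      g ((((3 ^ (A + 1) * cell n (k - A) v₀ + m) * 3 ^ (2 * n - (k + 1)) : ℕ) : ZMod (3 ^ (2 * n))) - v₀) ≤
      ∑ j ∈ range (3 ^ (k + 1)), ind (nrm (((j * 3 ^ (2 * n - (k + 1)) : ℕ) : ZMod (3 ^ (2 * n))) - v₀) <
        3 ^ (2 * n - (k - A))) * g (((j * 3 ^ (2 * n - (k + 1)) : ℕ) : ZMod (3 ^ (2 * n))) - v₀) := by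
    intro v₀
    have e : ∑ m ∈ range (3 ^ (A + 1) - 1),
        g ((((3 ^ (A + 1) * cell n (k - A) v₀ + m) * 3 ^ (2 * n - (k + 1)) : ℕ) : ZMod (3 ^ (2 * n))) - v₀) =
        ∑ j ∈ (range (3 ^ (A + 1) - 1)).image (fun m => 3 ^ (A + 1) * cell n (k - A) v₀ + m),
          ind (nrm (((j * 3 ^ (2 * n - (k + 1)) : ℕ) : ZMod (3 ^ (2 * n))) - v₀) <
          3 ^ (2 * n - (k - A))) * g (((j * 3 ^ (2 * n - (k + 1)) : ℕ) : ZMod (3 ^ (2 * n))) - v₀) := by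
      rw [Finset.sum_image (fun a _ b _ h => Nat.add_left_cancel h)]
      refine Finset.sum_congr rfl fun m hm => ?_
      rw [WIN_ind_pos (hwin v₀ m (by have := Finset.mem_range.1 hm; omega)), one_mul]
    rw [e]
    refine Finset.sum_le_sum_of_subset_of_nonneg ?_ (fun j _ _ => mul_nonneg (WIN_ind_nonneg _) (hg _))
    intro j hj
    obtain ⟨m, hm, rfl⟩ := Finset.mem_image.1 hj
    rw [Finset.mem_range] at hm ⊢
    have h1 := hcell v₀
    have h2 : 3 ^ (A + 1) * (cell n (k - A) v₀ + 1) ≤ 3 ^ (A + 1) * 3 ^ (k - A) := Nat.mul_le_mul_left _ h1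
    rw [mul_comm (3 ^ (A + 1)) (3 ^ (k - A)), hKB, mul_add, mul_one] at h2
    omega
  refine (Finset.sum_le_sum fun v₀ _ => step1 v₀).trans ?_
  rw [Finset.sum_comm]
  have step2 : ∀ j ∈ range (3 ^ (k + 1)), ∑ v₀ : ZMod (3 ^ (2 * n)),
      ind (nrm (((j * 3 ^ (2 * n - (k + 1)) : ℕ) : ZMod (3 ^ (2 * n))) - v₀) <
        3 ^ (2 * n - (k - A))) * g (((j * 3 ^ (2 * n - (k + 1)) : ℕ) : ZMod (3 ^ (2 * n))) - v₀) =
      ∑ v : ZMod (3 ^ (2 * n)), ind (nrm v < 3 ^ (2 * n - (k - A))) * g v := by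
    intro j _
    exact Fintype.sum_equiv (Equiv.subLeft (((j * 3 ^ (2 * n - (k + 1)) : ℕ) : ZMod (3 ^ (2 * n))))) _ _
      (fun v₀ => rfl)
  rw [Finset.sum_congr rfl step2, Finset.sum_const, Finset.card_range, nsmul_eq_mul]
  push_cast
  exact le_rfl

theorem WIN (hWI1 : WI1_stmt) (hWI2 : WI2_stmt) : WIN_stmt := by
  intro n c k A S hn hG hA hk
  refine (hWI1 n c k A S hn hG hA hk).trans ?_
  have hκ : k - A ≤ 2 * n := by omega
  set ℓ : ℝ := (3 : ℝ) ^ (2 * n - (k - A)) with hℓ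
  have hℓ0 : 0 < ℓ := by positivity
  set B : ℕ := 3 ^ (A + 1) with hB
  have hB0 : 0 < B := by positivity
  have hKB : 3 ^ (k - A) * B = 3 ^ (k + 1) := by
    rw [hB, ← pow_add]; congr 1; omega
  -- the functions
  let P : St n → ℕ → ℝ := fun p q => ind (Real.exp S * 3 ^ (n - (k - A)) ≤ ac c (k - A) p q) *
        ∑ m ∈ range (B - 1), |ac c (k + 1) p (B * q + m) - ac c (k + 1) p (B * q + m + 1)|
  let D : St n → ZMod (3 ^ (2 * n)) → ℝ := fun p v₀ => ∑ m ∈ range (B - 1),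
    |DD c (k - A) k p ((((B * cell n (k - A) v₀ + m) * 3 ^ (2 * n - (k + 1)) : ℕ) : ZMod (3 ^ (2 * n))) - v₀)|
  let Q : St n → ℕ → ℝ := fun p q => ∑ m ∈ range (B - 1),
    (ac c (k + 1) p (B * q + m) + ac c (k + 1) p (B * q + m + 1))
  let h : St n → ℝ := fun p => ind (hv c (k - A) (S - 1) p)
  have hD0 : ∀ p v₀, 0 ≤ D p v₀ := fun p v₀ => Finset.sum_nonneg fun _ _ => abs_nonneg _
  have hQ0 : ∀ p q, 0 ≤ Q p q := fun p q => Finset.sum_nonneg fun _ _ =>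
    add_nonneg (WIN_ac_nonneg _ _ _ _) (WIN_ac_nonneg _ _ _ _)
  have hp1 : ∀ (p : St n) (v₀ : ZMod (3 ^ (2 * n))), P p (cell n (k - A) v₀) ≤
      3 * (h (p.1 - v₀, p.2) * D (p.1 - v₀, p.2) v₀) + 4 / B * Q p (cell n (k - A) v₀) := by
    intro p v₀
    obtain ⟨w1, w2⟩ := hWI2 n c k A p v₀ S hA hk
    have i1 : ind (Real.exp S * 3 ^ (n - (k - A)) ≤ ac c (k - A) p (cell n (k - A) v₀)) ≤ h (p.1 - v₀, p.2) :=
      WIN_ind_mono w2
    have i0 := WIN_ind_nonneg (Real.exp S * 3 ^ (n - (k - A)) ≤ ac c (k - A) p (cell n (k - A) v₀))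
    have i2 := WIN_ind_le (Real.exp S * 3 ^ (n - (k - A)) ≤ ac c (k - A) p (cell n (k - A) v₀))
    have i3 : ∑ m ∈ range (B - 1), |ac c (k + 1) p (B * cell n (k - A) v₀ + m) -
        ac c (k + 1) p (B * cell n (k - A) v₀ + m + 1)| ≤ 3 * D (p.1 - v₀, p.2) v₀ +
        4 / B * Q p (cell n (k - A) v₀) := by
      dsimp only [D, Q]
      rw [Finset.mul_sum, Finset.mul_sum, ← Finset.sum_add_distrib]
      refine Finset.sum_le_sum fun m hm => ?_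
      have := w1 m (Finset.mem_range.1 hm)
      rw [hB]
      push_cast at this ⊢
      exact this
    calc P p (cell n (k - A) v₀) ≤ ind (Real.exp S * 3 ^ (n - (k - A)) ≤ ac c (k - A) p (cell n (k - A) v₀)) *
          (3 * D (p.1 - v₀, p.2) v₀ + 4 / B * Q p (cell n (k - A) v₀)) := mul_le_mul_of_nonneg_left i3 i0
      _ = 3 * (ind (Real.exp S * 3 ^ (n - (k - A)) ≤ ac c (k - A) p (cell n (k - A) v₀)) * D (p.1 - v₀, p.2) v₀) +
          ind (Real.exp S * 3 ^ (n - (k - A)) ≤ ac c (k - A) p (cell n (k - A) v₀)) *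
          (4 / B * Q p (cell n (k - A) v₀)) := by ring
      _ ≤ _ := by
        refine add_le_add (mul_le_mul_of_nonneg_left (mul_le_mul_of_nonneg_right i1 (hD0 _ _)) (by norm_num)) ?_
        refine mul_le_of_le_one_left (mul_nonneg (by positivity) (hQ0 _ _)) i2
  -- the second terms
  have hQs : ∀ p, ∑ q ∈ range (3 ^ (k - A)), Q p q ≤ 2 * 3 ^ n := by
    intro p
    have h1 : ∀ q ∈ range (3 ^ (k - A)), Q p q ≤ 2 * ∑ m ∈ range B, ac c (k + 1) p (B * q + m) := by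
      intro q _
      exact WIN_two B hB0 (fun m => ac c (k + 1) p (B * q + m)) (fun i => WIN_ac_nonneg _ _ _ _)
    refine (Finset.sum_le_sum h1).trans ?_
    rw [← Finset.mul_sum, WIN_blk B (3 ^ (k - A)) (fun j => ac c (k + 1) p j)]
    exact mul_le_mul_of_nonneg_left (WIN_ac_sum _ _ _ _) (by norm_num)
  have hp2 : ∀ p : St n, ℓ * ∑ q ∈ range (3 ^ (k - A)), P p q ≤
      3 * ∑ v₀ : ZMod (3 ^ (2 * n)), h (p.1 - v₀, p.2) * D (p.1 - v₀, p.2) v₀ + 4 / B * (ℓ * (2 * 3 ^ n)) := by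
    intro p
    rw [hℓ, ← WIN_avg n (k - A) hκ (fun q => P p q)]
    refine (Finset.sum_le_sum fun v₀ _ => hp1 p v₀).trans ?_
    rw [Finset.sum_add_distrib, ← Finset.mul_sum, ← Finset.mul_sum, WIN_avg n (k - A) hκ (fun q => Q p q)]
    refine add_le_add le_rfl (mul_le_mul_of_nonneg_left ?_ (by positivity))
    exact mul_le_mul_of_nonneg_left (hQs p) (by positivity)
  -- translation
  have htr : ∑ p : St n, ∑ v₀ : ZMod (3 ^ (2 * n)), h (p.1 - v₀, p.2) * D (p.1 - v₀, p.2) v₀ ≤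
      3 ^ (k + 1) * ∑ p : St n, h p * ∑ v, ind (nrm v < ℓ) * |DD c (k - A) k p v| := by
    rw [Finset.sum_comm]
    have e1 : ∀ v₀ : ZMod (3 ^ (2 * n)), ∑ p : St n, h (p.1 - v₀, p.2) * D (p.1 - v₀, p.2) v₀ =
        ∑ p : St n, h p * D p v₀ := by
      intro v₀
      exact Fintype.sum_equiv ((Equiv.subRight v₀).prodCongr (Equiv.refl _)) _ _ (fun p => rfl)
    rw [Finset.sum_congr rfl (fun v₀ _ => e1 v₀), Finset.sum_comm, Finset.mul_sum]
    refine Finset.sum_le_sum fun p _ => ?_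
    rw [← Finset.mul_sum]
    have := WIN_inj n k A hA hk (fun v => |DD c (k - A) k p v|) (fun v => abs_nonneg _)
    calc h p * ∑ v₀, D p v₀ ≤ h p * (3 ^ (k + 1) * ∑ v, ind (nrm v < ℓ) * |DD c (k - A) k p v|) :=
          mul_le_mul_of_nonneg_left this (WIN_ind_nonneg _)
      _ = _ := by ring
  have htot : ℓ * ∑ p : St n, ∑ q ∈ range (3 ^ (k - A)), P p q ≤
      3 * (3 ^ (k + 1) * ∑ p : St n, h p * ∑ v, ind (nrm v < ℓ) * |DD c (k - A) k p v|) +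
      (3 ^ (2 * n) * 2 ^ n) * (4 / B * (ℓ * (2 * 3 ^ n))) := by
    rw [Finset.mul_sum]
    refine (Finset.sum_le_sum fun p _ => hp2 p).trans ?_
    rw [Finset.sum_add_distrib, ← Finset.mul_sum]
    refine add_le_add (mul_le_mul_of_nonneg_left htr (by norm_num)) (le_of_eq ?_)
    rw [Finset.sum_const, nsmul_eq_mul]
    congr 1
    rw [Finset.card_univ, Fintype.card_prod, ZMod.card, Fintype.card_fun, Fintype.card_bool, Fintype.card_fin]
    push_cast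
    rfl
  set Sg := ∑ p : St n, h p * ∑ v, ind (nrm v < ℓ) * |DD c (k - A) k p v| with hSg
  have hW : (0 : ℝ) < 6 ^ n * 3 ^ (2 * n) := by positivity
  have h6 : (6 : ℝ) ^ n = 2 ^ n * 3 ^ n := by rw [← mul_pow]; norm_num
  have hBr : (B : ℝ) = 3 * 3 ^ A := by rw [hB]; push_cast; ring
  have hfin : ∑ p : St n, ∑ q ∈ range (3 ^ (k - A)), P p q ≤
      3 / ℓ * 3 ^ (k + 1) * Sg + 3 / 3 ^ A * (6 ^ n * 3 ^ (2 * n)) := by
    have e1 : (3 ^ (2 * n) * 2 ^ n) * (4 / (B : ℝ) * (ℓ * (2 * 3 ^ n))) =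
        ℓ * (8 / (B : ℝ) * (6 ^ n * 3 ^ (2 * n))) := by rw [h6]; ring
    rw [e1] at htot
    have e2 : 3 * (3 ^ (k + 1) * Sg) = ℓ * (3 / ℓ * 3 ^ (k + 1) * Sg) := by
      field_simp
    rw [e2, ← mul_add] at htot
    have h3 := le_of_mul_le_mul_left htot hℓ0
    refine h3.trans (add_le_add le_rfl (mul_le_mul_of_nonneg_right ?_ hW.le))
    rw [hBr]
    have : (0 : ℝ) < 3 ^ A := by positivity
    rw [div_le_div_iff₀ (by positivity) this]
    nlinarith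
  calc (∑ p : St n, ∑ q ∈ range (3 ^ (k - A)), P p q) / (6 ^ n * 3 ^ (2 * n))
      ≤ (3 / ℓ * 3 ^ (k + 1) * Sg + 3 / 3 ^ A * (6 ^ n * 3 ^ (2 * n))) / (6 ^ n * 3 ^ (2 * n)) :=
        div_le_div_of_nonneg_right hfin hW.le
    _ = 3 / ℓ * 3 ^ (k + 1) / (6 ^ n * 3 ^ (2 * n)) * Sg + 3 / 3 ^ A := by
        field_simp

end Pool.Agent.GA
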